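import Pool.Graph.R_seed8.Helper183.Geo.One
import Pool.Graph.R_seed8.Helper183.Geo.Transfer
set_option autoImplicit false
open MeasureTheory Set
namespace Geo
namespace LeadVol

theorem sh_eq (a b : ℝ) (v : ℤ × ℤ) : sh a b v = (((v.1 : ℝ) * a + v.2 * b : ℝ) : S) := by
  unfold sh
  rw [AddCircle.coe_add, ← zsmul_eq_mul, ← zsmul_eq_mul, AddCircle.coe_zsmul, AddCircle.coe_zsmul]

theorem sh_inj {a b : ℝ} (hfree : Free a b) {v w : ℤ × ℤ} (h : sh a b v = sh a b w) : v = w := by
  rw [sh_eq, sh_eq, ← sub_eq_zero, ← AddCircle.coe_sub] at h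
  obtain ⟨n, hn⟩ := AddCircle.coe_eq_zero_iff (1 : ℝ) |>.1 h
  rw [zsmul_eq_mul, mul_one] at hn
  have h1 := hfree (v.1 - w.1) (v.2 - w.2) n (by push_cast; linarith)
  ext
  · linarith [h1.1]
  · linarith [h1.2]

theorem sh_add (a b : ℝ) (v w : ℤ × ℤ) : sh a b (v + w) = sh a b v + sh a b w := by
  simp only [sh, Prod.fst_add, Prod.snd_add, add_smul]
  abel

open Classical in
theorem count_le {a b : ℝ} (hfree : Free a b) (A B : Set S) (m : ℕ) (φ : S → S)
    (hmaps : MapsTo φ A B) (hinj : InjOn φ A)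
    (hv : ∀ x ∈ A, ∃ v, le v m ∧ φ x = x + sh a b v) (N : ℕ) (x : S) :
    ((Finset.Ico (0 : ℤ) N ×ˢ Finset.Ico (0 : ℤ) N).filter (fun v => x + sh a b v ∈ A)).card ≤
    ((Finset.Ico (-m : ℤ) (N + m) ×ˢ Finset.Ico (-m : ℤ) (N + m)).filter
      (fun v => x + sh a b v ∈ B)).card := by
  have hrep : ∀ y : S, ∃ v : ℤ × ℤ, y ∈ A → le v m ∧ φ y = y + sh a b v := by
    intro y
    by_cases hy : y ∈ A
    · obtain ⟨v, h⟩ := hv y hy
      exact ⟨v, fun _ => h⟩
    · exact ⟨0, fun h => absurd h hy⟩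
  choose u hu using hrep
  apply Finset.card_le_card_of_injOn (fun v => v + u (x + sh a b v))
  · intro v hvm
    simp only [Finset.coe_filter, Finset.mem_product, Finset.mem_Ico, Set.mem_ofPred_eq] at hvm ⊢
    obtain ⟨⟨⟨h1, h2⟩, h3, h4⟩, h5⟩ := hvm
    obtain ⟨h6, h7⟩ := hu _ h5
    obtain ⟨h8, h9⟩ := h6
    rw [abs_le] at h8 h9
    refine ⟨⟨⟨?_, ?_⟩, ?_, ?_⟩, ?_⟩
    · simp only [Prod.fst_add]; linarith
    · simp only [Prod.fst_add]; linarith
    · simp only [Prod.snd_add]; linarith
    · simp only [Prod.snd_add]; linarith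
    · rw [sh_add, ← add_assoc, ← h7]
      exact hmaps h5
  · intro v hvm w hwm hvw
    simp only [Finset.coe_filter, Finset.mem_product, Finset.mem_Ico, Set.mem_ofPred_eq] at hvm hwm
    have h1 := (hu _ hvm.2).2
    have h2 := (hu _ hwm.2).2
    have h3 : φ (x + sh a b v) = φ (x + sh a b w) := by
      rw [h1, h2, add_assoc, ← sh_add, add_assoc, ← sh_add]
      exact congrArg (fun z => x + sh a b z) hvw
    have h4 := hinj hvm.2 hwm.2 h3
    exact sh_inj hfree (add_left_cancel h4)

open Classical in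
theorem lint_count {a b : ℝ} (A : Set S) (hA : MeasurableSet A) (F : Finset (ℤ × ℤ)) :
    ∫⁻ x : S, ((F.filter (fun v => x + sh a b v ∈ A)).card : ENNReal) = F.card * volume A := by
  have h1 : ∀ x : S, ((F.filter (fun v => x + sh a b v ∈ A)).card : ENNReal) =
      ∑ v ∈ F, ((fun x : S => x + sh a b v) ⁻¹' A).indicator (fun _ => (1 : ENNReal)) x := by
    intro x
    rw [Finset.card_filter, Nat.cast_sum]
    apply Finset.sum_congr rfl
    intro v _
    simp only [indicator, mem_preimage]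
    split_ifs <;> simp
  simp_rw [h1]
  rw [lintegral_finsetSum]
  · have h2 : ∀ v ∈ F, ∫⁻ x : S, ((fun x : S => x + sh a b v) ⁻¹' A).indicator
        (fun _ => (1 : ENNReal)) x = volume A := by
      intro v _
      have hm : MeasurableSet ((fun x : S => x + sh a b v) ⁻¹' A) :=
        (measurable_add_const _) hA
      rw [lintegral_indicator_const hm, one_mul]
      exact measure_preimage_add_right volume _ _
    rw [Finset.sum_congr rfl h2, Finset.sum_const, nsmul_eq_mul]
  · intro v _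
    exact measurable_const.indicator ((measurable_add_const _) hA)

theorem vol_le {a b : ℝ} (hfree : Free a b) (A B : Set S) (hA : MeasurableSet A)
    (hB : MeasurableSet B) (m : ℕ) (φ : S → S)
    (hmaps : MapsTo φ A B) (hinj : InjOn φ A)
    (hv : ∀ x ∈ A, ∃ v, le v m ∧ φ x = x + sh a b v) : volume A ≤ volume B := by
  classical
  have hfA : volume A ≠ ⊤ := measure_ne_top _ _
  have hfB : volume B ≠ ⊤ := measure_ne_top _ _
  have key : ∀ N : ℕ, ((N : ENNReal) ^ 2) * volume A ≤ ((N + 2 * m : ℕ) : ENNReal) ^ 2 * volume B := by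
    intro N
    have h1 : ∫⁻ x : S, (((Finset.Ico (0 : ℤ) N ×ˢ Finset.Ico (0 : ℤ) N).filter
        (fun v => x + sh a b v ∈ A)).card : ENNReal) ≤
        ∫⁻ x : S, (((Finset.Ico (-m : ℤ) (N + m) ×ˢ Finset.Ico (-m : ℤ) (N + m)).filter
        (fun v => x + sh a b v ∈ B)).card : ENNReal) := by
      apply lintegral_mono
      intro x
      exact Nat.cast_le.2 (count_le hfree A B m φ hmaps hinj hv N x)
    rw [lint_count A hA, lint_count B hB] at h1
    have c1 : ((Finset.Ico (0 : ℤ) N ×ˢ Finset.Ico (0 : ℤ) N).card : ENNReal) = (N : ENNReal) ^ 2 := by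
      rw [Finset.card_product, Int.card_Ico, sub_zero, Int.toNat_natCast]
      push_cast; ring
    have c2 : ((Finset.Ico (-m : ℤ) (N + m) ×ˢ Finset.Ico (-m : ℤ) (N + m)).card : ENNReal) =
        ((N + 2 * m : ℕ) : ENNReal) ^ 2 := by
      rw [Finset.card_product, Int.card_Ico]
      have : ((N : ℤ) + m - -m).toNat = N + 2 * m := by omega
      rw [this]
      push_cast; ring
    rw [c1, c2] at h1
    exact h1
  rw [← ENNReal.toReal_le_toReal hfA hfB]
  set α := (volume A).toReal
  set β := (volume B).toReal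
  have key2 : ∀ N : ℕ, (N : ℝ) ^ 2 * α ≤ ((N : ℝ) + 2 * m) ^ 2 * β := by
    intro N
    have h1 := key N
    rw [← ENNReal.toReal_le_toReal (by finiteness) (by finiteness)] at h1
    rw [ENNReal.toReal_mul, ENNReal.toReal_mul, ENNReal.toReal_pow, ENNReal.toReal_pow,
      ENNReal.toReal_natCast, ENNReal.toReal_natCast, Nat.cast_add, Nat.cast_mul] at h1
    exact h1
  have hβ : 0 ≤ β := ENNReal.toReal_nonneg
  by_contra hcon
  push Not at hcon
  have hd : 0 < α - β := sub_pos.2 hcon
  obtain ⟨N, hN⟩ := exists_nat_gt ((4 * m * β + 4 * m ^ 2 * β) / (α - β))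
  rw [div_lt_iff₀ hd] at hN
  have h1 := key2 (N + 1)
  have hm0 : (0 : ℝ) ≤ m := Nat.cast_nonneg m
  have hN0 : (0 : ℝ) ≤ N := Nat.cast_nonneg N
  push_cast at h1
  have h2 : ((N : ℝ) + 1) * ((N + 1) * (α - β)) ≤ (N + 1) * (4 * m * β + 4 * m ^ 2 * β) := by
    have h3 : 0 ≤ 4 * (m : ℝ) ^ 2 * β * N := by positivity
    nlinarith
  have h3 := le_of_mul_le_mul_left h2 (by positivity)
  nlinarith

theorem vol_lift {A : Set S} (hA : MeasurableSet A) (hA2 : A ⊆ arcO (1 / 16) (7 / 8)) :
    volume (C15.TL.lift A) = volume A := by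
  have h1 := (UnitAddCircle.measurePreserving_mk 0).measure_preimage hA.nullMeasurableSet
  rw [← h1, Measure.restrict_apply' measurableSet_Ioc]
  apply congrArg
  ext t
  constructor
  · rintro ⟨h2, h3⟩
    exact ⟨h3, h2.1, by linarith [h2.2]⟩
  · rintro ⟨h2, h3⟩
    refine ⟨?_, h2⟩
    obtain ⟨s, hs, hst⟩ := C15.TL.exists_lift hA2 h2
    have : s = t := C15.TL.pr_inj ⟨hs.1.1, hs.1.2.le⟩ ⟨h3.1, by linarith [h3.2]⟩ hst
    rw [← this]
    exact hs.1

open Classical in
theorem transfer_line_vol (a b : ℝ) (hfree : Free a b) (A B : Set S)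
    (hA : interior (closure A) = A) (hA' : volume (frontier A) = 0) (hA2 : A ⊆ arcO (1 / 16) (7 / 8))
    (hB : interior (closure B) = B) (hB' : volume (frontier B) = 0) (hB2 : B ⊆ arcO (1 / 16) (7 / 8))
    (harb : ∃ (m : ℕ) (φ : S → S), BijOn φ A B ∧ ∀ x ∈ A, ∃ v, le v m ∧ φ x = x + sh a b v)
    (hne : ¬ ∃ (l : ℕ) (Q : Fin l → Set S) (g : Fin l → Bool × S), (∀ i, volume (frontier (Q i)) = 0) ∧
      (∀ᵐ x : S, (if x ∈ A then 1 else 0 : ℝ) = ∑ i, (if x ∈ Q i then 1 else 0 : ℝ)) ∧
      (∀ᵐ x : S, (if x ∈ B then 1 else 0 : ℝ) = ∑ i, (if x ∈ isoS (g i) '' Q i then 1 else 0 : ℝ))) :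
    ∃ A' B' : Set ℝ, Body A' ∧ Body B' ∧ volume A' = volume B' ∧ ¬ BodyEq A' B' := by
  have hAo : IsOpen A := by rw [← hA]; exact isOpen_interior
  have hBo : IsOpen B := by rw [← hB]; exact isOpen_interior
  refine ⟨C15.TL.lift A, C15.TL.lift B, C15.TL.lift_body hA hA' hA2, C15.TL.lift_body hB hB' hB2,
    ?_, ?_⟩
  · rw [vol_lift hAo.measurableSet hA2, vol_lift hBo.measurableSet hB2]
    obtain ⟨m, φ, hφ, hv⟩ := harb
    apply le_antisymm
    · exact vol_le hfree A B hAo.measurableSet hBo.measurableSet m φ hφ.mapsTo hφ.injOn hv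
    · -- the inverse bijection
      have hrep : ∀ y : S, ∃ x : S, y ∈ B → x ∈ A ∧ φ x = y := by
        intro y
        by_cases hy : y ∈ B
        · obtain ⟨x, hx, hxy⟩ := hφ.surjOn hy
          exact ⟨x, fun _ => ⟨hx, hxy⟩⟩
        · exact ⟨0, fun h => absurd h hy⟩
      choose ψ hψ using hrep
      apply vol_le hfree B A hBo.measurableSet hAo.measurableSet m ψ (fun y hy => (hψ y hy).1)
      · intro y hy y' hy' h
        rw [← (hψ y hy).2, ← (hψ y' hy').2, h]
      · intro y hy
        obtain ⟨hx, hxy⟩ := hψ y hy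
        obtain ⟨v, hvm, hvφ⟩ := hv _ hx
        refine ⟨-v, ?_, ?_⟩
        · refine ⟨?_, ?_⟩
          · simpa using hvm.1
          · simpa using hvm.2
        · have h1 : y = ψ y + sh a b v := by rw [← hvφ, hxy]
          have h2 : sh a b (-v) = - sh a b v := by
            simp only [sh, Prod.fst_neg, Prod.snd_neg, neg_smul]; abel
          rw [h2]
          nth_rewrite 2 [h1]
          abel
  · rintro ⟨k, P, g, hbody, hdis, hAU, hdis', hBU⟩
    apply hne
    have hPo : ∀ i, IsOpen (P i) := by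
      intro i
      rw [← (hbody i).2.1]
      exact isOpen_interior
    have hPf : ∀ i, volume (frontier (P i)) = 0 := fun i => (hbody i).2.2
    obtain ⟨hsubA, haeA⟩ := C15.TL.ae_lemma A hA2 P hPo hPf hdis hAU
    have hRo : ∀ i, IsOpen (g i '' P i) := fun i => (g i).toHomeomorph.isOpenMap _ (hPo i)
    have hRf : ∀ i, volume (frontier (g i '' P i)) = 0 := by
      intro i
      have h1 : frontier (g i '' P i) = g i '' frontier (P i) :=
        ((g i).toHomeomorph.image_frontier (P i)).symm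
      rw [h1]
      obtain ⟨c, hc | hc⟩ := C15.TL.real_isom (g i)
      · have h2 : (g i : ℝ → ℝ) = fun t => t + c := funext hc
        rw [h2]
        exact addHaar_image_eq_zero_of_differentiableOn_of_addHaar_eq_zero volume
          (by fun_prop) (hPf i)
      · have h2 : (g i : ℝ → ℝ) = fun t => -t + c := funext hc
        rw [h2]
        exact addHaar_image_eq_zero_of_differentiableOn_of_addHaar_eq_zero volume
          (by fun_prop) (hPf i)
    obtain ⟨hsubB, haeB⟩ := C15.TL.ae_lemma B hB2 (fun i => g i '' P i) hRo hRf hdis' hBU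
    have hg' : ∀ i, ∃ q : Bool × S, ∀ t : ℝ, isoS q (C15.TL.pr t) = C15.TL.pr (g i t) := by
      intro i
      obtain ⟨c, hc | hc⟩ := C15.TL.real_isom (g i)
      · refine ⟨(true, C15.TL.pr c), fun t => ?_⟩
        rw [hc, C15.TL.pr_add]
        rfl
      · refine ⟨(false, C15.TL.pr c), fun t => ?_⟩
        rw [hc, C15.TL.pr_add, C15.TL.pr_neg]
        rfl
    choose g' hg' using hg'
    refine ⟨k, fun i => C15.TL.pr '' P i, g', ?_, haeA, ?_⟩
    · intro i
      have hs := (hsubA i).trans (C15.TL.lift_sub hA2)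
      exact measure_mono_null (C15.TL.frontier_image_sub (hPo i) hs) (C15.TL.null_frontier (hPf i) hs)
    · have himg : ∀ i, isoS (g' i) '' (C15.TL.pr '' P i) = C15.TL.pr '' (g i '' P i) := by
        intro i
        rw [image_image, image_image]
        apply image_congr
        intro t _
        exact hg' i t
      simp only [himg]
      exact haeB

theorem line_vol : ∃ A B : Set ℝ, Body A ∧ Body B ∧ volume A = volume B ∧ ¬ BodyEq A B := by
  have ha : Irrational (Real.sqrt 2) := irrational_sqrt_two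
  have hb : Irrational (Real.sqrt 3) := by
    have := Nat.Prime.irrational_sqrt (p := 3) (by norm_num)
    simpa using this
  obtain ⟨A, B, h1, h2, h3, h4, h5, h6, h7, h8⟩ := circle_example _ _ sqrt_free ha hb
  exact transfer_line_vol _ _ sqrt_free A B h1 h2 h3 h4 h5 h6 h7 h8

/-- transfer of the example to a Euclidean space along an orthonormal basis -/
theorem transfer_vol {X : Type*} [NormedAddCommGroup X] [InnerProductSpace ℝ X]
    [FiniteDimensional ℝ X] [MeasurableSpace X] [BorelSpace X] {n : ℕ}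
    (b : OrthonormalBasis (Fin n) ℝ X)
    (h : ∃ A B : Set X, Body A ∧ Body B ∧ volume A = volume B ∧ ¬ BodyEq A B) :
    ∃ A B : Set (EuclideanSpace ℝ (Fin n)), Body A ∧ Body B ∧ volume A = volume B ∧
      ¬ BodyEq A B := by
  have hb := b.measurePreserving_repr
  have hb' := b.measurePreserving_repr_symm
  have e1 : ∀ s : Set X, (b.repr.toIsometryEquiv : X → EuclideanSpace ℝ (Fin n)) '' s =
      b.repr.symm ⁻¹' s := by
    intro s
    ext y
    constructor
    · rintro ⟨x, hx, rfl⟩
      simpa using hx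
    · intro hy
      exact ⟨b.repr.symm y, hy, by simp⟩
  have e2 : ∀ s : Set (EuclideanSpace ℝ (Fin n)),
      (b.repr.toIsometryEquiv.symm : EuclideanSpace ℝ (Fin n) → X) '' s = b.repr ⁻¹' s := by
    intro s
    ext y
    constructor
    · rintro ⟨x, hx, rfl⟩
      have : b.repr (b.repr.toIsometryEquiv.symm x) = x := b.repr.apply_symm_apply x
      rw [mem_preimage, this]
      exact hx
    · intro hy
      exact ⟨b.repr y, hy, b.repr.symm_apply_apply y⟩
  have he : ∀ s : Set X, volume s = 0 → volume (b.repr.toIsometryEquiv '' s) = 0 := by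
    intro s hs
    rw [e1]
    exact hb'.quasiMeasurePreserving.preimage_null hs
  have he' : ∀ s : Set (EuclideanSpace ℝ (Fin n)), volume s = 0 →
      volume (b.repr.toIsometryEquiv.symm '' s) = 0 := by
    intro s hs
    rw [e2]
    exact hb.quasiMeasurePreserving.preimage_null hs
  obtain ⟨A, B, h1, h2, h3, h4⟩ := h
  have hAo : IsOpen A := by rw [← h1.2.1]; exact isOpen_interior
  have hBo : IsOpen B := by rw [← h2.2.1]; exact isOpen_interior
  refine ⟨b.repr.toIsometryEquiv '' A, b.repr.toIsometryEquiv '' B, body_image _ he h1,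
    body_image _ he h2, ?_, fun h5 => h4 ?_⟩
  · rw [e1, e1]
    have f1 := hb'.measure_preimage hAo.measurableSet.nullMeasurableSet
    have f2 := hb'.measure_preimage hBo.measurableSet.nullMeasurableSet
    exact f1.trans (h3.trans f2.symm)
  · have h6 := bodyEq_image b.repr.toIsometryEquiv.symm he' h5
    have h7 : ∀ s : Set X,
        b.repr.toIsometryEquiv.symm '' (b.repr.toIsometryEquiv '' s) = s := by
      intro s
      rw [image_image]
      simp
    rwa [h7, h7] at h6

theorem euclid_vol : ∃ A B : Set (EuclideanSpace ℝ (Fin 1)), Body A ∧ Body B ∧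
    volume A = volume B ∧ ¬ BodyEq A B :=
  transfer_vol (OrthonormalBasis.singleton (Fin 1) ℝ) line_vol

end LeadVol
end Geo
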